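import Mathlib
import Pool.Agent.Q167.BD.Final
set_option autoImplicit false

/-!
# All values in `[0, M_{p,q}]` are upper `s`-Beurling densities of spectra of `μ_{p,q}`

Construction of the spectrum for `d = θ M`, `0 ≤ θ ≤ 1`. The basic spectrum is `{λ_N}`, where the base
`q` digits of `N` are read in base `p`. Let `R = {N : ⌊θ(N+1)⌋ ≠ ⌊θN⌋}`. Over each removed prefix `N' ∉ R`
(that is, for all `N` whose lowest `N'² + 1` digits are those of `N'`) the digit `0` at position `N'²` is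
replaced by `q`. The resulting family `λ'_N` comes from a maximal orthogonal tree with at most one
non-zero digit in each tail, so it is a spectrum. The elements with `N ∉ R` are carried away, to about
`q p^(N²)`. Since `λ_N` is increasing in `N`, every window contains `θ` times as many `λ_N` with `N ∈ R`
as `λ_N` in all, up to one; the windows of `{λ_N}` are estimated by
`λ_b - λ_a ≥ κ ((b - a + 1)^(1/s) - 1)`, `κ = (q - 1)/(p - 1)`. The `λ'_N` with an extra digit at a
position `≥ k` are determined by their digits above `k`, hence negligible.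
-/

open MeasureTheory Filter Topology Finset
open scoped ENNReal

namespace Pool.Agent.Results.MP_5269d5_an.AllDensities

/-- `Λ` is a spectrum of `μ`: it is countable and `{e^{2πiλx}}_{λ ∈ Λ}` is an orthonormal basis of
`L²(μ)` -/
def IsSpectrum (μ : Measure ℝ) (Λ : Set ℝ) : Prop :=
  Λ.Countable ∧ ∃ b : HilbertBasis Λ ℂ (Lp ℂ 2 μ),
    ∀ l : Λ, (b l : ℝ → ℂ) =ᵐ[μ] fun x => Complex.exp (2 * Real.pi * (l : ℝ) * x * Complex.I)

/-- `μ = (1/q) ∑_{d ∈ (p/q){0,...,q-1}} μ ∘ f_d⁻¹`, `f_d(x) = (x + d) / p` -/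
def SelfSim (p q : ℕ) (μ : Measure ℝ) : Prop :=
  μ = (q : ℝ≥0∞)⁻¹ • ∑ j ∈ range q, μ.map (fun x : ℝ => (x + (p : ℝ) / q * j) / p)

/-- the upper `r`-Beurling density `limsup_{h → ∞} sup_x #(Λ ∩ (x - h, x + h)) / h^r` -/
noncomputable def upperDensity (r : ℝ) (Λ : Set ℝ) : ℝ≥0∞ :=
  limsup (fun h : ℝ => ⨆ x : ℝ, ((Λ ∩ Set.Ioo (x - h) (x + h)).encard : ℝ≥0∞) /
    ENNReal.ofReal (h ^ r)) atTop

/-- For all integers `2 ≤ q < p` with `q ∣ p`, with `s = log q / log p`, every `d` with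
`0 ≤ d ≤ (2(p-1)/(q-1))^s` is the upper `s`-Beurling density of a spectrum of `μ_{p,q}`. -/
theorem result (p q : ℕ) (hq : 2 ≤ q) (hdvd : q ∣ p) (hlt : q < p) (μ : Measure ℝ)
    [IsProbabilityMeasure μ] (hμ : SelfSim p q μ) (d : ℝ) (hd0 : 0 ≤ d)
    (hd : d ≤ (2 * ((p : ℝ) - 1) / ((q : ℝ) - 1)) ^ (Real.log q / Real.log p)) :
    ∃ Λ : Set ℝ, IsSpectrum μ Λ ∧
      upperDensity (Real.log q / Real.log p) Λ = ENNReal.ofReal d :=
  Pool.Agent.Q167.BD.answer p q hq hdvd hlt μ hμ d hd0 hd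

end Pool.Agent.Results.MP_5269d5_an.AllDensities
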